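import Pool.Agent.Lib.MP_391708_nt.H20.Spec
import Pool.Agent.Lib.MP_cb27ba_nt.H71.LS

/-!
# LS: the analytic large sieve for points separated modulo 1
-/

set_option autoImplicit false

namespace Pool.Agent.Lib.MP_391708_nt.H20

open Finset Filter Topology
open scoped ComplexConjugate

lemma norm_ee (x : ℝ) : ‖ee x‖ = 1 := by
  unfold ee
  rw [show 2 * (Real.pi : ℂ) * Complex.I * (x : ℂ) = ((2 * Real.pi * x : ℝ) : ℂ) * Complex.I by
    push_cast; ring]
  exact Complex.norm_exp_ofReal_mul_I _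

lemma ee_add (x y : ℝ) : ee (x + y) = ee x * ee y := by
  unfold ee
  rw [← Complex.exp_add]
  congr 1
  push_cast
  ring

lemma ee_int (k : ℤ) : ee k = 1 := by
  unfold ee
  rw [Complex.exp_eq_one_iff]
  exact ⟨k, by push_cast; ring⟩

lemma ee_zero : ee 0 = 1 := by simpa using ee_int 0

/-- multiples of the fractional part -/
lemma ee_fract (n : ℕ) (x : ℝ) : ee (n * Int.fract x) = ee (n * x) := by
  have h : (n : ℝ) * x = n * Int.fract x + ((n * ⌊x⌋ : ℤ) : ℝ) := by
    push_cast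
    rw [← mul_add, Int.fract_add_floor]
  rw [h, ee_add, ee_int, mul_one]

lemma norm_sum_ee_sq_le (c : ℕ → ℂ) (N : ℕ) (x : ℝ) :
    ‖∑ n ∈ range N, c n * ee (n * x)‖ ^ 2 ≤ N * ∑ n ∈ range N, ‖c n‖ ^ 2 := by
  have h1 : ‖∑ n ∈ range N, c n * ee (n * x)‖ ≤ ∑ n ∈ range N, ‖c n‖ := by
    refine (norm_sum_le _ _).trans (le_of_eq ?_)
    refine Finset.sum_congr rfl fun n _ => ?_
    rw [norm_mul, norm_ee, mul_one]
  have h2 : (∑ n ∈ range N, ‖c n‖) ^ 2 ≤ N * ∑ n ∈ range N, ‖c n‖ ^ 2 := by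
    have := sq_sum_le_card_mul_sum_sq (s := range N) (f := fun n => ‖c n‖)
    simpa using this
  calc ‖∑ n ∈ range N, c n * ee (n * x)‖ ^ 2 ≤ (∑ n ∈ range N, ‖c n‖) ^ 2 := by gcongr
    _ ≤ _ := h2

theorem ls : SpecLS := by
  classical
  refine ⟨20, by norm_num, ?_⟩
  intro ι s θ N δ hδ hsep c
  have hT0 : 0 ≤ ∑ n ∈ range N, ‖c n‖ ^ 2 := Finset.sum_nonneg fun _ _ => sq_nonneg _
  rcases Nat.eq_zero_or_pos N with hN | hN
  · subst hN; simp
  have hN1 : (1 : ℝ) ≤ N := by exact_mod_cast hN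
  rcases s.eq_empty_or_nonempty with hs | ⟨i₀, hi₀⟩
  · subst hs; simp only [Finset.sum_empty]; positivity
  by_cases hone : ∀ i ∈ s, i = i₀
  · have hs1 : s = {i₀} := Finset.eq_singleton_iff_unique_mem.2 ⟨hi₀, hone⟩
    subst hs1
    rw [Finset.sum_singleton]
    refine (norm_sum_ee_sq_le c N (θ i₀)).trans ?_
    refine mul_le_mul_of_nonneg_right ?_ hT0
    have : 0 ≤ 1 / δ := by positivity
    linarith
  push Not at hone
  obtain ⟨i₁, hi₁, hne⟩ := hone
  -- δ ≤ 1 / 2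
  have hδ2 : δ ≤ 1 / 2 := by
    have h := hsep i₁ hi₁ i₀ hi₀ hne (round (θ i₁ - θ i₀))
    exact h.trans (abs_sub_round _)
  set α : ι → ℝ := fun i => Int.fract (θ i - θ i₀ + δ / 2) with hα
  set d : ℕ → ℂ := fun n => c n * ee (n * (θ i₀ - δ / 2)) with hd
  have hdn : ∀ n, ‖d n‖ = ‖c n‖ := fun n => by
    simp only [hd, norm_mul, norm_ee, mul_one]
  have hsepα : ∀ r ∈ s, ∀ t ∈ s, r ≠ t → δ ≤ |α r - α t| := by
    intro r hr t ht hrt
    have h := hsep r hr t ht hrt (⌊θ r - θ i₀ + δ / 2⌋ - ⌊θ t - θ i₀ + δ / 2⌋)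
    have h2 : θ r - θ t - ((⌊θ r - θ i₀ + δ / 2⌋ - ⌊θ t - θ i₀ + δ / 2⌋ : ℤ) : ℝ) = α r - α t := by
      simp only [hα]
      rw [← Int.self_sub_floor, ← Int.self_sub_floor]
      push_cast
      ring
    rw [h2] at h
    exact h
  have h01 : ∀ r ∈ s, δ / 2 ≤ α r ∧ α r + δ / 2 ≤ 1 := by
    intro r hr
    by_cases hr0 : r = i₀
    · subst hr0
      have : α r = δ / 2 := by
        simp only [hα, sub_self, zero_add]
        exact Int.fract_eq_self.2 ⟨by linarith, by linarith⟩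
      rw [this]
      constructor <;> linarith
    · set x := θ r - θ i₀ with hx
      have h1 : δ ≤ Int.fract x := by
        have h := hsep r hr i₀ hi₀ hr0 ⌊x⌋
        have h2 : θ r - θ i₀ - ((⌊x⌋ : ℤ) : ℝ) = Int.fract x := by
          rw [← Int.self_sub_floor]
        rw [h2, abs_of_nonneg (Int.fract_nonneg _)] at h
        exact h
      have h2 : Int.fract x ≤ 1 - δ := by
        have h := hsep r hr i₀ hi₀ hr0 (⌊x⌋ + 1)
        have h2 : θ r - θ i₀ - ((⌊x⌋ + 1 : ℤ) : ℝ) = -(1 - Int.fract x) := by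
          rw [← Int.self_sub_floor]
          push_cast
          ring
        rw [h2, abs_neg, abs_of_nonneg (by linarith [Int.fract_lt_one x])] at h
        linarith
      have h3 : α r = Int.fract x + δ / 2 := by
        simp only [hα, ← hx]
        have h4 : x + δ / 2 = (Int.fract x + δ / 2) + ((⌊x⌋ : ℤ) : ℝ) := by
          rw [← Int.self_sub_floor]; ring
        rw [h4, Int.fract_add_intCast]
        exact Int.fract_eq_self.2 ⟨by linarith, by linarith⟩
      rw [h3]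
      constructor <;> linarith
  set S : Finset ℤ := (range N).map Nat.castEmbedding with hS
  have hSN : ∀ n ∈ S, |(n : ℝ)| ≤ (N : ℝ) := by
    intro n hn
    rw [hS, Finset.mem_map] at hn
    obtain ⟨k, hk, rfl⟩ := hn
    have hk2 := Finset.mem_range.1 hk
    simp only [Nat.castEmbedding_apply, Int.cast_natCast]
    rw [abs_of_nonneg (by positivity)]
    exact_mod_cast hk2.le
  have hmain := Pool.Agent.Lib.MP_cb27ba_nt.H71.large_sieve (fun n : ℤ => d n.toNat) S
    (N := (N : ℝ)) (by linarith) hSN s α hδ hsepα h01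
  have hF : ∀ i, ‖Pool.Agent.Lib.MP_cb27ba_nt.H71.F (fun n : ℤ => d n.toNat) S (α i)‖ =
      ‖∑ n ∈ range N, c n * ee (n * θ i)‖ := by
    intro i
    congr 1
    unfold Pool.Agent.Lib.MP_cb27ba_nt.H71.F
    rw [hS, Finset.sum_map]
    refine Finset.sum_congr rfl fun n _ => ?_
    simp only [Nat.castEmbedding_apply, Int.toNat_natCast, hd]
    have h1 : Complex.exp (2 * Real.pi * Complex.I * ((n : ℤ) : ℂ) * (α i : ℂ)) =
        ee (n * α i) := by
      unfold ee
      congr 1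
      push_cast
      ring
    rw [h1]
    simp only [hα]
    rw [ee_fract, mul_assoc, ← ee_add]
    congr 2
    ring
  have hT : ∑ n ∈ S, ‖(fun n : ℤ => d n.toNat) n‖ ^ 2 = ∑ n ∈ range N, ‖c n‖ ^ 2 := by
    rw [hS, Finset.sum_map]
    refine Finset.sum_congr rfl fun n _ => ?_
    simp only [Nat.castEmbedding_apply, Int.toNat_natCast, hdn]
  rw [hT] at hmain
  simp only [hF] at hmain
  refine hmain.trans (mul_le_mul_of_nonneg_right ?_ hT0)
  have h1 : 0 ≤ 1 / δ := by positivity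
  have h2 : Real.pi ≤ 4 := Real.pi_le_four
  nlinarith

end Pool.Agent.Lib.MP_391708_nt.H20
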