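import Mathlib

/-!
# Elliott-type theorem for `n² + a`: definitions (project H20)

See the project row and the ideas row of helper20 for the paper proof.
-/

set_option autoImplicit false

namespace Pool.Agent.Lib.MP_391708_nt.H20

open Finset Filter Topology
open scoped ComplexConjugate

/-! ## Exponentials and weights -/

/-- `e(x) = exp(2πix)`. -/
noncomputable def ee (x : ℝ) : ℂ := Complex.exp (2 * Real.pi * Complex.I * x)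

/-- Admissible weights: supported on primes in `(P/2, P]`, of size at most `κ log P / P`, total
mass at most `1`. -/
def Adm (κ : ℝ) (P : ℕ) (c : ℕ → ℂ) : Prop :=
  (∀ n, c n ≠ 0 → n.Prime ∧ P < 2 * n ∧ n ≤ P) ∧ (∀ n, ‖c n‖ ≤ κ * Real.log P / P) ∧
    ∑ n ∈ range (P + 1), ‖c n‖ ≤ 1

/-- The squarefree numbers in `[1, Q]`. -/
def sqfree (Q : ℕ) : Finset ℕ := (Icc 1 Q).filter (fun q => Squarefree q)

/-! ## Multiplicative functions -/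

/-- `g` is completely multiplicative with values in the `m`-th roots of unity. -/
def IsMulRoot (m : ℕ) (g : ℕ → ℂ) : Prop :=
  (∀ x y : ℕ, g (x * y) = g x * g y) ∧ ∀ n : ℕ, 1 ≤ n → g n ^ m = 1

/-- `g²` is not pretentious to `1` on the primes of `PS` in any progression `1 mod q`. -/
def NonReal (g : ℕ → ℂ) (PS : Set ℕ) : Prop :=
  ∀ q : ℕ, 0 < q → ¬ Summable (fun p : ℕ =>
    Set.indicator {p : ℕ | p ∈ PS ∧ p.Prime ∧ p ≡ 1 [MOD q] ∧ g p ^ 2 ≠ 1}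
      (fun p : ℕ => 1 / (p : ℝ)) p)

/-! ## Finitely additive probabilities and entropy -/

/-- A finitely additive probability on all subsets of `S`. -/
structure FAP (S : Type) where
  pr : Set S → ℝ
  nonneg : ∀ A, 0 ≤ pr A
  univ : pr Set.univ = 1
  add : ∀ A B, Disjoint A B → pr (A ∪ B) = pr A + pr B

namespace FAP

variable {S : Type} (μ : FAP S)

/-- The law of a map. -/
def law {α : Type} (X : S → α) (x : α) : ℝ := μ.pr (X ⁻¹' {x})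

/-- Expectation of `F ∘ X` for a finite valued `X`. -/
def ex {α : Type} [Fintype α] (X : S → α) (F : α → ℝ) : ℝ := ∑ x, μ.law X x * F x

/-- Shannon entropy of a finite valued map. -/
noncomputable def ent {α : Type} [Fintype α] (X : S → α) : ℝ := ∑ x, Real.negMulLog (μ.law X x)

/-- Mutual information. -/
noncomputable def mi {α β : Type} [Fintype α] [Fintype β] (X : S → α) (Y : S → β) : ℝ :=
  μ.ent X + μ.ent Y - μ.ent (fun s => (X s, Y s))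

end FAP

/-! ## Means -/

/-- Bounded complex functions. -/
def Bdd {S : Type} (f : S → ℂ) : Prop := ∃ C : ℝ, ∀ s, ‖f s‖ ≤ C

/-- A mean on the bounded complex functions on `S`. -/
structure Mean (S : Type) where
  E : (S → ℂ) → ℂ
  one : E (fun _ => 1) = 1
  add : ∀ f g : S → ℂ, Bdd f → Bdd g → E (fun s => f s + g s) = E f + E g
  smul : ∀ (c : ℂ) (f : S → ℂ), Bdd f → E (fun s => c * f s) = c * E f
  nonneg : ∀ f : S → ℝ, Bdd (fun s => (f s : ℂ)) → (∀ s, 0 ≤ f s) →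
    0 ≤ (E (fun s => (f s : ℂ))).re ∧ (E (fun s => (f s : ℂ))).im = 0

open Classical in
/-- The probability of a set under a mean. -/
noncomputable def Mean.pr {S : Type} (M : Mean S) (A : Set S) : ℝ :=
  (M.E (fun s => if s ∈ A then 1 else 0)).re

/-! ## Hecke systems -/

/-- The data produced by the concrete averages: a `T`-invariant mean, and for every prime of `PS`
and each sign `σ` the events `A σ p` (`p ∣ c`, `n ≡ σρ_p`), `B σ p` (`p ∣ e`, `n ≡ σρ_p`) and the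
flip `φ σ p : (n, e) ↦ (n, pe)` from the first to the second. -/
structure PreHecke (m : ℕ) (g : ℕ → ℂ) (PS : Set ℕ) where
  S : Type
  M : Mean S
  T : S → S
  u : S → ℂ
  A : Bool → ℕ → Set S
  B : Bool → ℕ → Set S
  φ : Bool → ℕ → S → S
  prime : ∀ p ∈ PS, p.Prime
  u_pow : ∀ s, u s ^ m = 1
  inv : ∀ f : S → ℂ, Bdd f → M.E (fun s => f (T s)) = M.E f
  B_T : ∀ σ, ∀ p ∈ PS, ∀ s, T s ∈ B σ p ↔ s ∈ B σ p
  B_disj : ∀ p ∈ PS, ∀ s, s ∈ B true p → s ∉ B false p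
  A_T : ∀ σ, ∀ p ∈ PS, ∀ s, T^[p] s ∈ A σ p ↔ s ∈ A σ p
  cover : ∀ σ, ∀ p ∈ PS, ∀ s, s ∉ B (!σ) p → ∃ k < p, T^[k] s ∈ A σ p
  uniq : ∀ σ, ∀ p ∈ PS, ∀ s, ∀ k < p, ∀ l < p, T^[k] s ∈ A σ p → T^[l] s ∈ A σ p → k = l
  BA : ∀ σ, ∀ p ∈ PS, ∀ s, s ∈ B (!σ) p → s ∉ A σ p
  flip : ∀ σ, ∀ p ∈ PS, ∀ f : S → ℂ, Bdd f →
    M.E ((A σ p).indicator (fun s => f (φ σ p s))) = M.E ((B σ p).indicator f)
  flip_A : ∀ σ τ, ∀ p ∈ PS, ∀ q ∈ PS, p ≠ q → ∀ s ∈ A σ p, (φ σ p s ∈ A τ q ↔ s ∈ A τ q)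
  flip_B : ∀ σ τ, ∀ p ∈ PS, ∀ q ∈ PS, p ≠ q → ∀ s ∈ A σ p, (φ σ p s ∈ B τ q ↔ s ∈ B τ q)
  flip_u : ∀ σ, ∀ p ∈ PS, ∀ s ∈ A σ p, ∀ k : ℕ, u (T^[k] (φ σ p s)) = conj (g p) * u (T^[p * k] s)

/-- An abstract Hecke system: the laws of the events `A p`, `B p`, `V p` (`V p` is the event that
no `T^k` hits `A p`) and the flip identity. -/
structure HeckeMean (m : ℕ) (g : ℕ → ℂ) (PS : Set ℕ) where
  S : Type
  M : Mean S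
  T : S → S
  u : S → ℂ
  A : ℕ → Set S
  B : ℕ → Set S
  V : ℕ → Set S
  prime : ∀ p ∈ PS, p.Prime
  u_pow : ∀ s, u s ^ m = 1
  inv : ∀ f : S → ℂ, Bdd f → M.E (fun s => f (T s)) = M.E f
  V_T : ∀ p ∈ PS, ∀ s, T s ∈ V p ↔ s ∈ V p
  A_T : ∀ p ∈ PS, ∀ s, T^[p] s ∈ A p ↔ s ∈ A p
  cover : ∀ p ∈ PS, ∀ s, s ∉ V p → ∃ k < p, T^[k] s ∈ A p
  uniq : ∀ p ∈ PS, ∀ s, ∀ k < p, ∀ l < p, T^[k] s ∈ A p → T^[l] s ∈ A p → k = l
  VA : ∀ p ∈ PS, ∀ s, s ∈ V p → s ∉ A p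
  lawAV : ∀ W₁ W₂ : Finset ℕ, (W₁ : Set ℕ) ⊆ PS → (W₂ : Set ℕ) ⊆ PS → Disjoint W₁ W₂ →
    M.pr {s | (∀ p ∈ W₁, s ∈ A p) ∧ (∀ p ∈ W₂, s ∈ V p)} = ∏ p ∈ W₁ ∪ W₂, (1 / ((p : ℝ) + 1))
  lawB : ∀ W : Finset ℕ, (W : Set ℕ) ⊆ PS →
    M.pr {s | ∀ p ∈ W, s ∈ B p} = ∏ p ∈ W, (1 / ((p : ℝ) + 1))
  flip : ∀ W : Finset ℕ, (W : Set ℕ) ⊆ PS → ∀ k : ℕ,
    M.E ({s | ∀ p ∈ W, s ∈ A p}.indicator (fun s => u s * u (T^[(∏ p ∈ W, p) * k] s))) =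
      g (∏ p ∈ W, p) ^ 2 *
        M.E ({s | ∀ p ∈ W, s ∈ B p}.indicator (fun s => u s * u (T^[k] s)))

/-- The weight of a finite set of primes. -/
noncomputable def wt (F : Finset ℕ) : ℝ := ∑ p ∈ F, (1 / ((p : ℝ) + 1))

/-- The Hilbert space picture of a Hecke system (`U` = Koopman isometry, `ub` = conjugate of `u`,
`a d = 1_{A_d} ub`, `b d = 1_{B_d} ub`). -/
structure HH (H : Type) [NormedAddCommGroup H] [InnerProductSpace ℂ H] (g : ℕ → ℂ)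
    (PS : Set ℕ) where
  U : H →ₗᵢ[ℂ] H
  u : H
  ub : H
  a : ℕ → H
  b : ℕ → H
  norm_u : ‖u‖ ≤ 1
  norm_ub : ‖ub‖ ≤ 1
  norm_a : ∀ W : Finset ℕ, (W : Set ℕ) ⊆ PS →
    ‖a (∏ p ∈ W, p)‖ ^ 2 ≤ ∏ p ∈ W, (1 / ((p : ℝ) + 1))
  flip : ∀ W : Finset ℕ, (W : Set ℕ) ⊆ PS → ∀ k : ℕ,
    inner ℂ (a (∏ p ∈ W, p)) (U^[(∏ p ∈ W, p) * k] u) =
      g (∏ p ∈ W, p) ^ 2 * inner ℂ (b (∏ p ∈ W, p)) (U^[k] u)
  bessel_a1 : ∀ (h : H) (F : Finset ℕ), (F : Set ℕ) ⊆ PS →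
    ∑ p ∈ F, (1 / ((p : ℝ) + 1)) * ‖((p : ℂ) + 1) * inner ℂ (a p) h - inner ℂ ub h‖ ^ 2 ≤ ‖h‖ ^ 2
  bessel_b1 : ∀ (h : H) (F : Finset ℕ), (F : Set ℕ) ⊆ PS →
    ∑ p ∈ F, (1 / ((p : ℝ) + 1)) * ‖((p : ℂ) + 1) * inner ℂ (b p) h - inner ℂ ub h‖ ^ 2 ≤ ‖h‖ ^ 2
  bessel_a2 : ∀ (h : H) (F : Finset ℕ), (F : Set ℕ) ⊆ PS →
    ∑ x ∈ F.offDiag, (1 / (((x.1 : ℝ) + 1) * ((x.2 : ℝ) + 1))) *
      ‖((x.1 : ℂ) + 1) * ((x.2 : ℂ) + 1) * inner ℂ (a (x.1 * x.2)) h - inner ℂ ub h‖ ^ 2 ≤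
      12 * (1 + wt F) * ‖h‖ ^ 2
  bessel_b2 : ∀ (h : H) (F : Finset ℕ), (F : Set ℕ) ⊆ PS →
    ∑ x ∈ F.offDiag, (1 / (((x.1 : ℝ) + 1) * ((x.2 : ℝ) + 1))) *
      ‖((x.1 : ℂ) + 1) * ((x.2 : ℂ) + 1) * inner ℂ (b (x.1 * x.2)) h - inner ℂ ub h‖ ^ 2 ≤
      12 * (1 + wt F) * ‖h‖ ^ 2
  /-- For every vector `e` there is `t d = (∏ (p+1)) · E(1_{A_d} |e|)` and `τ = E|e|`. -/
  maximal : ∀ e : H, ∃ (t : ℕ → ℝ) (τ : ℝ), 0 ≤ τ ∧ τ ≤ ‖e‖ ∧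
    (∀ W : Finset ℕ, (W : Set ℕ) ⊆ PS → ∀ k : ℕ,
      (∏ p ∈ W, ((p : ℝ) + 1)) * ‖inner ℂ (a (∏ p ∈ W, p)) (U^[(∏ p ∈ W, p) * k] e)‖ ≤
        t (∏ p ∈ W, p)) ∧
    (∀ F : Finset ℕ, (F : Set ℕ) ⊆ PS →
      ∑ p ∈ F, (1 / ((p : ℝ) + 1)) * (t p - τ) ^ 2 ≤ ‖e‖ ^ 2) ∧
    (∀ F : Finset ℕ, (F : Set ℕ) ⊆ PS →
      ∑ x ∈ F.offDiag, (1 / (((x.1 : ℝ) + 1) * ((x.2 : ℝ) + 1))) * (t (x.1 * x.2) - τ) ^ 2 ≤
        12 * (1 + wt F) * ‖e‖ ^ 2)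

/-! ## Windows of primes -/

/-- The window of primes `≡ 1 mod q` in `(2^(i-1), 2^i]`. -/
def win (q i : ℕ) : Finset ℕ :=
  (Ioc (2 ^ (i - 1)) (2 ^ i)).filter (fun p => p.Prime ∧ p ≡ 1 [MOD q])

/-- `∑ 1/p` over a finite set. -/
noncomputable def rs (W : Finset ℕ) : ℝ := ∑ p ∈ W, (1 / (p : ℝ))

/-- A rich sparse sequence of scales for the progression `1 mod q`. -/
structure Scales (q : ℕ) (c₀ : ℝ) (i : ℕ → ℕ) : Prop where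
  mono : StrictMono i
  pos : ∀ j, 1 ≤ i j
  sparse : Summable (fun j => (2 : ℝ) ^ (i j) / (2 : ℝ) ^ (i (j + 1)))
  div : ¬ Summable (fun j => 1 / (i j : ℝ))
  rich : ∀ j, c₀ / (i j : ℝ) ≤ rs (win q (i j))

/-! ## The concrete averages -/

/-- Valid states `(n, e)`: `e ≥ 1`, `e ∣ n² + a`, `n² + a > 0`. -/
def Valid (a : ℤ) (s : ℕ × ℕ) : Prop :=
  0 < s.2 ∧ (s.2 : ℤ) ∣ (s.1 : ℤ) ^ 2 + a ∧ 0 < (s.1 : ℤ) ^ 2 + a

instance (a : ℤ) (s : ℕ × ℕ) : Decidable (Valid a s) := by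
  unfold Valid; infer_instance

/-- The type of valid states. -/
def St (a : ℤ) : Type := {s : ℕ × ℕ // Valid a s}

/-- `c = (n² + a)/e`. -/
def cc (a : ℤ) (s : ℕ × ℕ) : ℕ := (((s.1 : ℤ) ^ 2 + a) / (s.2 : ℤ)).toNat

/-- `T(n, e) = (n + e, e)`. -/
def TT {a : ℤ} (s : St a) : St a :=
  ⟨(s.1.1 + s.1.2, s.1.2), by
    obtain ⟨⟨n, e⟩, h1, h2, h3⟩ := s
    refine ⟨h1, ?_, ?_⟩
    · simp only [Nat.cast_add] at *
      have : ((n : ℤ) + e) ^ 2 + a = ((n : ℤ) ^ 2 + a) + e * (2 * n + e) := by ring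
      rw [this]
      exact dvd_add h2 (dvd_mul_right _ _)
    · simp only [Nat.cast_add] at *
      nlinarith [mul_nonneg (Int.natCast_nonneg n) (Int.natCast_nonneg e),
        mul_nonneg (Int.natCast_nonneg e) (Int.natCast_nonneg e)]⟩

/-- Parameters `(K, N)`; the box: `N < n ≤ 2N`, `e ≤ n < K e`, `(n, e)` valid. -/
def box (a : ℤ) (q : ℕ × ℕ) : Finset (ℕ × ℕ) :=
  ((Ioc q.2 (2 * q.2)) ×ˢ (Icc 1 (2 * q.2))).filter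
    (fun s => s.2 ≤ s.1 ∧ s.1 < q.1 * s.2 ∧ Valid a s)

open Classical in
/-- Extension by `0` of a function on the valid states. -/
noncomputable def ext0 {a : ℤ} (f : St a → ℂ) (s : ℕ × ℕ) : ℂ :=
  if h : Valid a s then f ⟨s, h⟩ else 0

/-- The average over the box. -/
noncomputable def avg (a : ℤ) (q : ℕ × ℕ) (f : St a → ℂ) : ℂ :=
  (∑ s ∈ box a q, ext0 f s) / ((box a q).card : ℂ)

/-- The filter on parameters: `K` large, then `N` large depending on `K`. -/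
def par : Filter (ℕ × ℕ) :=
  (atTop : Filter ℕ).bind (fun K => (atTop : Filter ℕ).map (fun N => (K, N)))

/-- The number of roots of `n² + a` modulo `e`. -/
def rho (a : ℤ) (e : ℕ) : ℕ := ((range e).filter (fun n : ℕ => (e : ℤ) ∣ (n : ℤ) ^ 2 + a)).card

/-- The primes `≡ 1 mod 4|a|`. -/
def PP (a : ℤ) : Set ℕ := {p | p.Prime ∧ p ≡ 1 [MOD 4 * a.natAbs]}

/-- `u(n, e) = g((n² + a)/e)`. -/
def uu {a : ℤ} (g : ℕ → ℂ) (s : St a) : ℂ := g (cc a s.1)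

end Pool.Agent.Lib.MP_391708_nt.H20
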