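import Pool.Agent.Lib.MP_391708_nt.H20.Spec
import Pool.Agent.Lib.MP_391708_nt.Eqd.Prime

/-!
# Project H20, module PL: primes in progressions on logarithmic scales

Uses the prime sums of the module PRIME of the project Eqd (helper61).
-/

set_option autoImplicit false

namespace Pool.Agent.Lib.MP_391708_nt.H20

open Finset

namespace PlM

lemma mertens (q : ℕ) (hq : 0 < q) : ∃ C : ℝ, ∀ y : ℕ, 3 ≤ y →
    |(∑ p ∈ (Icc 1 y).filter (fun p => p.Prime ∧ p ≡ 1 [MOD q]), 1 / (p : ℝ)) -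
      (1 / (q.totient : ℝ)) * Real.log (Real.log y)| ≤ C := by
  obtain ⟨C, hC⟩ := Pool.Agent.Lib.MP391708.Eqd.specPrime q hq 1 (Nat.coprime_one_left q) 1 one_pos
  refine ⟨C, fun y hy => ?_⟩
  have h := hC y hy 0 (by simp)
  have h1 : (∑ p ∈ (Icc 1 y).filter (fun p => p.Prime ∧ p ≡ 1 [MOD q]),
      (p : ℂ) ^ (-1 + Complex.I * ((0 : ℝ) : ℂ))) =
      ((∑ p ∈ (Icc 1 y).filter (fun p => p.Prime ∧ p ≡ 1 [MOD q]), 1 / (p : ℝ) : ℝ) : ℂ) := by
    push_cast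
    refine Finset.sum_congr rfl fun p _ => ?_
    rw [mul_zero, add_zero, Complex.cpow_neg_one, one_div]
  rw [h1, ← Complex.ofReal_sub, Complex.norm_real, Real.norm_eq_abs] at h
  have h2 : -Real.log (1 / Real.log y + |(0 : ℝ)|) = Real.log (Real.log y) := by
    rw [abs_zero, add_zero, one_div, Real.log_inv, neg_neg]
  rw [h2] at h
  exact h

end PlM

open PlM in
/-- Module PL. -/
theorem pl : SpecPL := by
  intro q hq
  obtain ⟨C, hC⟩ := mertens q hq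
  have hφ : 0 < (q.totient : ℝ) := by exact_mod_cast Nat.totient_pos.2 hq
  obtain ⟨ρ, hρ⟩ := exists_nat_ge (Real.exp ((q.totient : ℝ) * (2 * C + 1)))
  have hρ0 : 0 < (ρ : ℝ) := lt_of_lt_of_le (Real.exp_pos _) hρ
  have hρ1 : 1 ≤ ρ := by exact_mod_cast hρ0
  refine ⟨ρ, 1, 3, one_pos, fun y hy => ?_⟩
  have hyρ : y ≤ y ^ ρ := Nat.le_self_pow (by omega) y
  have h1 := abs_le.1 (hC y hy)
  have h2 := abs_le.1 (hC (y ^ ρ) (hy.trans hyρ))
  have hsplit : (∑ p ∈ (Icc 1 (y ^ ρ)).filter (fun p => p.Prime ∧ p ≡ 1 [MOD q]), 1 / (p : ℝ)) =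
      (∑ p ∈ (Icc 1 y).filter (fun p => p.Prime ∧ p ≡ 1 [MOD q]), 1 / (p : ℝ)) +
        rs ((Ioc y (y ^ ρ)).filter (fun p => p.Prime ∧ p ≡ 1 [MOD q])) := by
    unfold rs
    rw [← Finset.sum_union]
    · congr 1
      ext p
      simp only [Finset.mem_filter, Finset.mem_union, Finset.mem_Icc, Finset.mem_Ioc]
      constructor
      · rintro ⟨⟨h3, h4⟩, h5⟩
        by_cases h6 : p ≤ y
        · exact Or.inl ⟨⟨h3, h6⟩, h5⟩
        · exact Or.inr ⟨⟨by omega, h4⟩, h5⟩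
      · rintro (⟨⟨h3, h4⟩, h5⟩ | ⟨⟨h3, h4⟩, h5⟩)
        · exact ⟨⟨h3, h4.trans hyρ⟩, h5⟩
        · exact ⟨⟨by omega, h4⟩, h5⟩
    · rw [Finset.disjoint_left]
      intro p hp hp2
      simp only [Finset.mem_filter, Finset.mem_Icc, Finset.mem_Ioc] at hp hp2
      omega
  have hlogy : 0 < Real.log y := Real.log_pos (by
    have : (3 : ℝ) ≤ y := by exact_mod_cast hy
    linarith)
  have hll : Real.log (Real.log ((y ^ ρ : ℕ) : ℝ)) = Real.log ρ + Real.log (Real.log y) := by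
    push_cast
    rw [Real.log_pow, Real.log_mul hρ0.ne' hlogy.ne']
  rw [hll, hsplit] at h2
  have h3 : (q.totient : ℝ) * (2 * C + 1) ≤ Real.log ρ :=
    (Real.le_log_iff_exp_le hρ0).2 hρ
  have h4 : 2 * C + 1 ≤ (1 / (q.totient : ℝ)) * Real.log ρ := by
    rw [one_div_mul_eq_div, le_div_iff₀ hφ]
    linarith
  have h5 := h1.2
  have h6 := h2.1
  rw [mul_add] at h6
  linarith

end Pool.Agent.Lib.MP_391708_nt.H20
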