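import Pool.Agent.Lib.MP_391708_nt.H20.LS

/-!
# RAM: Ramanujan sums and Cauchy–Schwarz
-/

set_option autoImplicit false

namespace Pool.Agent.Lib.MP_391708_nt.H20

open Finset Filter Topology
open scoped ComplexConjugate

lemma sum_nthRoots_one {n : ℕ} (hn : 1 < n) : ∑ z ∈ Polynomial.nthRootsFinset n (1 : ℂ), z = 0 := by
  have hp := Complex.isPrimitiveRoot_exp n (by omega)
  have h1 := hp.geom_sum_eq_zero hn
  rw [← h1]
  refine (Finset.sum_bij (fun i _ => Complex.exp (2 * Real.pi * Complex.I / n) ^ i) ?_ ?_ ?_ ?_).symm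
  · intro i _
    rw [Polynomial.mem_nthRootsFinset (by omega), ← pow_mul, mul_comm i n, pow_mul, hp.pow_eq_one,
      one_pow]
  · intro i hi j hj hij
    exact hp.pow_inj (Finset.mem_range.1 hi) (Finset.mem_range.1 hj) hij
  · intro z hz
    rw [Polynomial.mem_nthRootsFinset (by omega)] at hz
    have : NeZero n := ⟨by omega⟩
    obtain ⟨i, hi, h⟩ := hp.eq_pow_of_pow_eq_one hz
    exact ⟨i, Finset.mem_range.2 hi, h⟩
  · intro i _; rfl

lemma sum_primitiveRoots (q : ℕ) (hq : 0 < q) :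
    ∑ z ∈ primitiveRoots q ℂ, z = (ArithmeticFunction.moebius q : ℂ) := by
  have h := (ArithmeticFunction.sum_eq_iff_sum_mul_moebius_eq
    (f := fun n : ℕ => ∑ z ∈ primitiveRoots n ℂ, z) (g := fun n : ℕ => if n = 1 then (1 : ℂ) else 0)).1 ?_
    q hq
  · rw [← h]
    rw [Finset.sum_eq_single (q, 1)]
    · simp
    · rintro ⟨a, b⟩ hab hne
      rw [Nat.mem_divisorsAntidiagonal] at hab
      have : b ≠ 1 := by
        rintro rfl
        apply hne
        simp at hab
        rw [hab.1]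
      simp [this]
    · intro h
      exact absurd (Nat.mem_divisorsAntidiagonal.2 ⟨by simp, hq.ne'⟩) h
  · intro n hn
    have h1 : ∑ i ∈ n.divisors, ∑ z ∈ primitiveRoots i ℂ, z =
        ∑ z ∈ Polynomial.nthRootsFinset n (1 : ℂ), z := by
      rw [IsPrimitiveRoot.nthRoots_one_eq_biUnion_primitiveRoots, Finset.sum_biUnion]
      intro i _ j _ hij
      exact IsPrimitiveRoot.disjoint hij
    rw [h1]
    split_ifs with h2
    · subst h2
      rw [← h1]
      simp
    · exact sum_nthRoots_one (by omega)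

/-- sums over primitive roots as sums over residues -/
lemma sum_coprime_eq (q : ℕ) (hq : 0 < q) (F : ℂ → ℂ) :
    ∑ a ∈ (range q).filter (fun a => a.Coprime q), F (ee (a / q)) =
      ∑ z ∈ primitiveRoots q ℂ, F z := by
  have hee : ∀ a : ℕ, ee ((a : ℝ) / q) = Complex.exp (2 * Real.pi * Complex.I * (a / q)) := by
    intro a
    unfold ee
    push_cast
    rfl
  refine Finset.sum_bij (fun a _ => ee ((a : ℝ) / q)) ?_ ?_ ?_ ?_
  · intro a ha
    rw [mem_filter, mem_range] at ha
    rw [mem_primitiveRoots hq, Complex.isPrimitiveRoot_iff _ _ hq.ne']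
    exact ⟨a, ha.1, ha.2, (hee a).symm⟩
  · intro a ha b hb hab
    rw [mem_filter, mem_range] at ha hb
    have hp := Complex.isPrimitiveRoot_exp q hq.ne'
    refine hp.pow_inj ha.1 hb.1 ?_
    have h2 : ∀ a : ℕ, Complex.exp (2 * Real.pi * Complex.I / q) ^ a = ee ((a : ℝ) / q) := by
      intro a
      rw [hee, ← Complex.exp_nat_mul]
      congr 1
      ring
    rw [h2, h2]
    exact hab
  · intro z hz
    rw [mem_primitiveRoots hq, Complex.isPrimitiveRoot_iff _ _ hq.ne'] at hz
    obtain ⟨a, ha, hc, h⟩ := hz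
    refine ⟨a, ?_, ?_⟩
    · rw [mem_filter, mem_range]; exact ⟨ha, hc⟩
    · rw [← h]; exact hee a
  · intro a _; rfl

lemma sum_primitiveRoots_pow {q n : ℕ} (hq : 0 < q) (hn : n.Coprime q) :
    ∑ z ∈ primitiveRoots q ℂ, z ^ n = ∑ z ∈ primitiveRoots q ℂ, z := by
  rcases Nat.eq_or_lt_of_le (Nat.succ_le_of_lt hq) with h1 | h1
  · have : q = 1 := by omega
    subst this
    simp
  obtain ⟨m, hm⟩ := Nat.exists_mul_mod_eq_one_of_coprime hn h1
  have hnm : n * m ≡ 1 [MOD q] := by
    unfold Nat.ModEq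
    rw [hm.2, Nat.mod_eq_of_lt h1]
  have hcm : m.Coprime q := by
    rw [Nat.coprime_iff_gcd_eq_one]
    have h2 : Nat.gcd m q ∣ n * m % q := by
      rw [Nat.dvd_mod_iff (Nat.gcd_dvd_right m q)]
      exact (Nat.gcd_dvd_left m q).mul_left n
    rw [hm.2] at h2
    exact Nat.dvd_one.1 h2
  have key : ∀ z ∈ primitiveRoots q ℂ, z ^ (n * m) = z := by
    intro z hz
    have hz1 := (mem_primitiveRoots hq).1 hz
    have h2 : z ^ (n * m) = z ^ 1 := by
      rw [← Nat.div_add_mod (n * m) q, hm.2, pow_add, pow_mul, hz1.pow_eq_one, one_pow, one_mul]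
    rw [h2, pow_one]
  refine Finset.sum_nbij' (fun z => z ^ n) (fun z => z ^ m) ?_ ?_ ?_ ?_ ?_
  · intro z hz
    rw [mem_primitiveRoots hq] at hz ⊢
    exact hz.pow_of_coprime n hn
  · intro z hz
    rw [mem_primitiveRoots hq] at hz ⊢
    exact hz.pow_of_coprime m hcm
  · intro z hz
    rw [← pow_mul]
    exact key z hz
  · intro z hz
    rw [← pow_mul, mul_comm]
    exact key z hz
  · intro z _; rfl

lemma ee_nat_mul (n : ℕ) (x : ℝ) : ee (n * x) = ee x ^ n := by
  unfold ee
  rw [← Complex.exp_nat_mul]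
  congr 1
  push_cast
  ring

theorem ram : SpecRam := by
  intro q hq N c hc θ
  have hq0 : 0 < q := Nat.pos_of_ne_zero hq.ne_zero
  set A := (range q).filter (fun a => a.Coprime q) with hA
  have hcard : A.card = q.totient := by
    rw [Nat.totient_eq_card_coprime]
    congr 1
    exact Finset.filter_congr fun a _ => Nat.coprime_comm
  -- the twisted sum
  have h1 : ∑ a ∈ A, ∑ n ∈ range N, c n * ee (n * (θ + a / q)) =
      (ArithmeticFunction.moebius q : ℂ) * ∑ n ∈ range N, c n * ee (n * θ) := by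
    rw [Finset.sum_comm, Finset.mul_sum]
    refine Finset.sum_congr rfl fun n _ => ?_
    by_cases hcn : c n = 0
    · simp [hcn]
    have hn := hc n hcn
    have h2 : ∀ a ∈ A, c n * ee (n * (θ + a / q)) = c n * ee (n * θ) * (ee (a / q)) ^ n := by
      intro a _
      rw [mul_add, ee_add, ee_nat_mul n (a / q), mul_assoc]
    rw [Finset.sum_congr rfl h2, ← Finset.mul_sum]
    have h3 := sum_coprime_eq q hq0 (fun z => z ^ n)
    rw [← hA] at h3
    rw [h3, sum_primitiveRoots_pow hq0 hn, sum_primitiveRoots q hq0]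
    ring
  have h2 : ‖(ArithmeticFunction.moebius q : ℂ)‖ = 1 := by
    rw [ArithmeticFunction.moebius_apply_of_squarefree hq]
    push_cast
    rw [norm_pow, norm_neg, norm_one, one_pow]
  have h3 : ‖∑ n ∈ range N, c n * ee (n * θ)‖ =
      ‖∑ a ∈ A, ∑ n ∈ range N, c n * ee (n * (θ + a / q))‖ := by
    rw [h1, norm_mul, h2, one_mul]
  rw [h3, ← hcard]
  calc ‖∑ a ∈ A, ∑ n ∈ range N, c n * ee (n * (θ + a / q))‖ ^ 2
      ≤ (∑ a ∈ A, ‖∑ n ∈ range N, c n * ee (n * (θ + a / q))‖) ^ 2 := by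
        gcongr
        exact norm_sum_le _ _
    _ ≤ _ := sq_sum_le_card_mul_sum_sq

end Pool.Agent.Lib.MP_391708_nt.H20
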