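import Pool.Agent.Lib.MP_391708_nt.H20.Defs

/-!
# Elliott-type theorem for `n² + a`: the statements of the modules (project H20)

Each module is a `Prop`.  Proof files: `H20/<Module>.lean` with `theorem <module> : Spec<Module>`
(possibly with hypotheses `Spec…` of other modules, as indicated).
-/

set_option autoImplicit false

namespace Pool.Agent.Lib.MP_391708_nt.H20

open Finset Filter Topology
open scoped ComplexConjugate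

/-! ## Number theory: large sieve -/

/-- LS. Analytic large sieve for `δ`-separated points. -/
def SpecLS : Prop := ∃ C : ℝ, 0 < C ∧ ∀ (ι : Type) (s : Finset ι) (θ : ι → ℝ) (N : ℕ) (δ : ℝ),
  0 < δ → (∀ i ∈ s, ∀ j ∈ s, i ≠ j → ∀ k : ℤ, δ ≤ |θ i - θ j - k|) → ∀ c : ℕ → ℂ,
  ∑ i ∈ s, ‖∑ n ∈ range N, c n * ee (n * θ i)‖ ^ 2 ≤
    C * (N + 1 / δ) * ∑ n ∈ range N, ‖c n‖ ^ 2

/-- RAM. If `c` is supported on integers coprime to the squarefree `q` then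
`|S(θ)|² ≤ φ(q) ∑*_{a mod q} |S(θ + a/q)|²` (Ramanujan sum + Cauchy–Schwarz). -/
def SpecRam : Prop := ∀ q : ℕ, Squarefree q → ∀ (N : ℕ) (c : ℕ → ℂ),
  (∀ n, c n ≠ 0 → n.Coprime q) → ∀ θ : ℝ,
  ‖∑ n ∈ range N, c n * ee (n * θ)‖ ^ 2 ≤
    (q.totient : ℝ) * ∑ a ∈ (range q).filter (fun a => a.Coprime q),
      ‖∑ n ∈ range N, c n * ee (n * (θ + a / q))‖ ^ 2

/-- LSUM. -/
def SpecLsum : Prop :=
  (∃ c₀ : ℝ, 0 < c₀ ∧ ∀ Q : ℕ, 1 ≤ Q →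
    c₀ * Real.log Q ≤ ∑ q ∈ sqfree Q, (1 / (q.totient : ℝ))) ∧
  ∀ Q p : ℕ, p.Prime → ∑ q ∈ (sqfree Q).filter (fun q => p ∣ q), (1 / (q.totient : ℝ)) ≤
    (1 / ((p : ℝ) - 1)) * ∑ q ∈ sqfree Q, (1 / (q.totient : ℝ))

/-- SEP (from LS, RAM, LSUM). Few large values of the exponential sums with admissible weights:
the constant does not depend on the number `D` of points. -/
def SpecSep : Prop := ∀ κ : ℝ, 0 < κ → ∃ C : ℝ, 0 < C ∧ ∀ D : ℕ, ∃ Q₀ P₀ : ℕ, 0 < Q₀ ∧ ∀ P ≥ P₀,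
  ∀ (s : Finset ℕ) (θ : ℕ → ℝ), s.card ≤ D →
  (∀ i ∈ s, ∀ j ∈ s, i ≠ j → ∀ r : ℕ, 0 < r → r ≤ Q₀ → ∀ b : ℤ,
    1 / (P : ℝ) ≤ |θ i - θ j - b / r|) →
  ∀ c : ℕ → ℂ, Adm κ P c →
    ∑ i ∈ s, ‖∑ n ∈ range (P + 1), c n * ee (n * θ i)‖ ^ 2 ≤ C

/-! ## Hilbert space part -/

/-- POS. Positivity of trigonometric polynomials of an isometry. -/
def SpecPos : Prop := ∀ (H : Type) [NormedAddCommGroup H] [InnerProductSpace ℂ H]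
  (U : H →ₗᵢ[ℂ] H) (x : H) (ι κ : Type) (s : Finset ι) (t : Finset κ) (N : ℕ)
  (f : ι → ℕ → ℂ) (g : κ → ℕ → ℂ) (B : ℝ),
  (∀ θ : ℝ, ∑ i ∈ s, ‖∑ n ∈ range N, f i n * ee (n * θ)‖ ^ 2 ≤
    B + ∑ k ∈ t, ‖∑ n ∈ range N, g k n * ee (n * θ)‖ ^ 2) →
  ∑ i ∈ s, ‖∑ n ∈ range N, f i n • U^[n] x‖ ^ 2 ≤
    B * ‖x‖ ^ 2 + ∑ k ∈ t, ‖∑ n ∈ range N, g k n • U^[n] x‖ ^ 2

/-- `z` is orthogonal to all periodic vectors. -/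
def Irreg {H : Type} [NormedAddCommGroup H] [InnerProductSpace ℂ H] (U : H →ₗᵢ[ℂ] H) (z : H) :
    Prop := ∀ q : ℕ, 0 < q → ∀ w : H, U^[q] w = w → inner ℂ w z = 0

/-- SB (from SEP, POS and the mean ergodic theorem of Mathlib). -/
def SpecSB : Prop := ∀ κ : ℝ, 0 < κ → ∃ C : ℝ, 0 < C ∧
  ∀ (H : Type) [NormedAddCommGroup H] [InnerProductSpace ℂ H] [CompleteSpace H]
  (U : H →ₗᵢ[ℂ] H) (z : H), Irreg U z → ∀ D : Finset ℕ, (∀ d ∈ D, 0 < d) →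
  ∃ P₀ : ℕ, ∀ P ≥ P₀, ∀ c : ℕ → ℂ, Adm κ P c →
    ∑ d ∈ D, ‖∑ n ∈ range (P + 1), c n • U^[d * n] z‖ ^ 2 ≤ C * ‖z‖ ^ 2 + 1

/-- DECOMP. Periodic part + small + irregular part. -/
def SpecDecomp : Prop := ∀ (H : Type) [NormedAddCommGroup H] [InnerProductSpace ℂ H]
  [CompleteSpace H] (U : H →ₗᵢ[ℂ] H) (x : H) (η : ℝ), 0 < η →
  ∃ (Q : ℕ) (y e z : H), 0 < Q ∧ x = y + e + z ∧ U^[Q] y = y ∧ ‖e‖ ≤ η ∧ Irreg U z ∧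
    ‖y‖ ≤ ‖x‖ ∧ ‖z‖ ≤ ‖x‖

/-- CZERO (from SB, DECOMP). -/
def SpecCZero : Prop := ∀ (m : ℕ) (κ : ℝ) (g : ℕ → ℂ) (PS : Set ℕ), 1 ≤ m → 0 < κ →
  IsMulRoot m g → (∀ p ∈ PS, p.Prime) → NonReal g PS →
  ∀ (H : Type) [NormedAddCommGroup H] [InnerProductSpace ℂ H] [CompleteSpace H] (X : HH H g PS),
  ∀ ε : ℝ, 0 < ε → ∃ P₀ : ℕ, ∀ P ≥ P₀, ∀ c : ℕ → ℂ, Adm κ P c →
    ‖∑ n ∈ range (P + 1), c n * inner ℂ X.ub (X.U^[n] X.u)‖ ≤ ε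

/-! ## Entropy -/

/-- ENT1. -/
def SpecEntCard : Prop := ∀ (S α : Type) [Fintype α] (μ : FAP S) (X : S → α),
  0 ≤ μ.ent X ∧ μ.ent X ≤ Real.log (Fintype.card α)

/-- ENT2. Entropy decrement over a sequence of scales. -/
def SpecDecr : Prop := ∀ (S : Type) (μ : FAP S) (T : S → S), (∀ A, μ.pr (T ⁻¹' A) = μ.pr A) →
  ∀ (G : Type) [Fintype G] (u : S → G) (P : ℕ → ℕ), (∀ j, 0 < P j) → (∀ j, P j ∣ P (j + 1)) →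
  ∀ (β : ℕ → Type) [∀ j, Fintype (β j)] (Y : ∀ j, S → β j) (σ : ∀ j, β j → β j),
  (∀ j, Function.Injective (σ j)) → (∀ j s, Y j (T s) = σ j (Y j s)) → ∀ J : ℕ,
  ∑ j ∈ range J, μ.mi (fun s (i : Fin (2 * P j)) => u (T^[i] s)) (Y j) / (2 * (P j : ℝ)) ≤
    Real.log (Fintype.card G) + ∑ j ∈ range J, μ.ent (Y j) / (2 * (P (j + 1) : ℝ))

/-- CONC. Gibbs variational inequality + Hoeffding. -/
def SpecConc : Prop := ∀ (S : Type) (μ : FAP S) (α : Type) [Fintype α] (X : S → α)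
  (W : Finset ℕ) (β : ℕ → Type) [∀ p, Fintype (β p)] (Y : ∀ p, S → β p),
  (∀ y : (∀ p : W, β p), μ.law (fun s (p : W) => Y p s) y = ∏ p : W, (1 / (Fintype.card (β p) : ℝ))) →
  ∀ (f : α → ∀ p : ℕ, β p → ℝ) (b : ℕ → ℝ), (∀ x, ∀ p ∈ W, ∀ y, |f x p y| ≤ b p) →
  (∀ x, ∀ p ∈ W, ∑ y, f x p y = 0) → ∀ t : ℝ, 0 < t →
  μ.ex (fun s => (X s, fun p : W => Y p s)) (fun z => ∑ p : W, f z.1 p (z.2 p)) ≤
    (μ.mi X (fun s (p : W) => Y p s) + t ^ 2 / 2 * ∑ p ∈ W, b p ^ 2) / t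

/-! ## Hecke systems -/

open Classical in
/-- MEAN. Elementary properties of means (`FAP` of a mean, conjugation, Cauchy–Schwarz,
expectation of functions of finite valued maps). -/
def SpecMean : Prop := ∀ (S : Type) (M : Mean S),
  (∃ μ : FAP S, (∀ A, μ.pr A = M.pr A) ∧
    ∀ (α : Type) [Fintype α] (X : S → α) (F : α → ℂ),
      M.E (fun s => F (X s)) = ∑ x, (μ.law X x : ℂ) * F x) ∧
  (∀ f : S → ℂ, Bdd f → M.E (fun s => conj (f s)) = conj (M.E f)) ∧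
  (∀ f : S → ℂ, ∀ C : ℝ, (∀ s, ‖f s‖ ≤ C) → ‖M.E f‖ ≤ C)

/-- ZLAW. The position `Z p s` of the event `A p` along the orbit of `s`. -/
def SpecZ : Prop := ∀ (m : ℕ) (g : ℕ → ℂ) (PS : Set ℕ) (X : HeckeMean m g PS),
  ∃ (Z : ∀ p : ℕ, X.S → Option (Fin p)) (σ : ∀ p : ℕ, Option (Fin p) → Option (Fin p)),
    (∀ p, Function.Injective (σ p)) ∧ (∀ p ∈ PS, ∀ s, Z p (X.T s) = σ p (Z p s)) ∧
    (∀ p ∈ PS, ∀ s, ∀ k : Fin p, Z p s = some k ↔ X.T^[k] s ∈ X.A p) ∧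
    ∀ W : Finset ℕ, (W : Set ℕ) ⊆ PS → ∀ y : (∀ p : W, Option (Fin p)),
      X.M.pr {s | ∀ p : W, Z p s = y p} = ∏ p : W, (1 / ((p : ℕ) + 1 : ℝ))

open Classical in
/-- DECOUP (from ENT1, DECR, CONC, MEAN, Z). The entropy decrement argument. -/
def SpecDecoup : Prop := ∀ (m : ℕ) (g : ℕ → ℂ) (PS : Set ℕ) (X : HeckeMean m g PS), 1 ≤ m →
  ∀ (q : ℕ) (c₀ : ℝ) (i : ℕ → ℕ), 0 < c₀ → Scales q c₀ i → (∀ j, (win q (i j) : Set ℕ) ⊆ PS) →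
  ∀ ε : ℝ, 0 < ε → ∃ G : Set ℕ, ¬ Summable (G.indicator (fun j => 1 / (i j : ℝ))) ∧
    ∀ j ∈ G, ∀ v : ℕ → ℂ, (∀ p, ‖v p‖ ≤ 1) →
    ‖∑ p ∈ win q (i j), (1 / (p : ℂ)) * v p *
      (((p : ℂ) + 1) * X.M.E ((X.A p).indicator (fun s => X.u s * X.u (X.T^[p] s))) -
        X.M.E (fun s => X.u s * X.u (X.T^[p] s)))‖ ≤ ε * rs (win q (i j))

/-- GNS (uses MEAN). Every Hecke system has a Hilbert space picture. -/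
def SpecGNS : Prop := ∀ (m : ℕ) (g : ℕ → ℂ) (PS : Set ℕ) (X : HeckeMean m g PS), 1 ≤ m →
  ∃ (H : Type) (_ : NormedAddCommGroup H) (_ : InnerProductSpace ℂ H) (_ : CompleteSpace H)
    (Y : HH H g PS),
    (∀ k, inner ℂ Y.ub (Y.U^[k] Y.u) = X.M.E (fun s => X.u s * X.u (X.T^[k] s))) ∧
    (∀ p ∈ PS, ∀ k, inner ℂ (Y.b p) (Y.U^[k] Y.u) =
      X.M.E ((X.B p).indicator (fun s => X.u s * X.u (X.T^[k] s))))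

/-! ## Primes in progressions -/

/-- PL. -/
def SpecPL : Prop := ∀ q : ℕ, 0 < q → ∃ (ρ : ℕ) (c : ℝ) (y₀ : ℕ), 0 < c ∧ ∀ y ≥ y₀,
  c ≤ rs ((Ioc y (y ^ ρ)).filter (fun p => p.Prime ∧ p ≡ 1 [MOD q]))

/-- SCALES (from PL and Chebyshev). -/
def SpecScales : Prop := ∀ q : ℕ, 0 < q → ∃ (c₀ : ℝ) (i : ℕ → ℕ), 0 < c₀ ∧ Scales q c₀ i

/-- ABS (from CZERO, DECOUP, GNS, SCALES). The abstract theorem. -/
def SpecAbs : Prop := ∀ (m : ℕ) (g : ℕ → ℂ) (PS : Set ℕ) (q₀ : ℕ), 1 ≤ m → 0 < q₀ →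
  IsMulRoot m g → NonReal g PS → (∀ p : ℕ, p.Prime → p ≡ 1 [MOD q₀] → p ∈ PS) →
  ∀ X : HeckeMean m g PS, X.M.E (fun s => X.u s * X.u (X.T s)) = 0

/-- LAWS. The joint laws follow from `T`- and flip-invariance. -/
def SpecLaws : Prop := ∀ (m : ℕ) (g : ℕ → ℂ) (PS : Set ℕ), 1 ≤ m → IsMulRoot m g →
  ∀ X : PreHecke m g PS, ∃ Y : HeckeMean m g PS,
    Y.M.E (fun s => Y.u s * Y.u (Y.T s)) = X.M.E (fun s => X.u s * X.u (X.T s))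

/-! ## The concrete averages -/

/-- UB. -/
def SpecUB : Prop := ∀ a : ℤ, ¬ IsSquare (-a) → ∃ C : ℝ, 0 < C ∧ ∀ Y : ℕ,
  ((∑ e ∈ Icc 1 Y, rho a e : ℕ) : ℝ) ≤ C * Y

/-- LB. -/
def SpecLB : Prop := ∀ a : ℤ, ¬ IsSquare (-a) → ∃ (c : ℝ) (B R₀ : ℕ), 0 < c ∧ 1 < B ∧ ∀ R ≥ R₀,
  c * (R : ℝ) ≤ ((∑ e ∈ Ioc (R / B) R, rho a e : ℕ) : ℝ)

/-- MASS (from UB, LB). -/
def SpecMass : Prop := ∀ a : ℤ, ¬ IsSquare (-a) →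
  (∃ c C : ℝ, 0 < c ∧ ∀ K : ℕ, 1 ≤ K → ∃ N₀ : ℕ, ∀ N ≥ N₀,
    (c * Real.log K - C) * N ≤ ((box a (K, N)).card : ℝ)) ∧
  (∀ p : ℕ, ∃ C : ℝ, ∀ N M : ℕ,
    ((((Ioc N (2 * N)) ×ˢ (Ioc M (p * M))).filter
      (fun s : ℕ × ℕ => (s.2 : ℤ) ∣ (s.1 : ℤ) ^ 2 + a)).card : ℝ) ≤ C * (N + M))

/-- SHIFT (from UB, MASS). -/
def SpecShift : Prop := ∀ a : ℤ, ¬ IsSquare (-a) → ∀ f : St a → ℂ, Bdd f →
  Tendsto (fun q => avg a q (fun s => f (TT s)) - avg a q f) par (𝓝 0)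

/-- FLIP (from MASS). For a prime `p` not dividing `a` and any residue `r` mod `p`: the flip
`(n, e) ↦ (n, pe)` from `{p ∣ c, n ≡ r}` to `{p ∣ e, n ≡ r}`. -/
def SpecFlip : Prop := ∀ a : ℤ, ¬ IsSquare (-a) → ∀ p : ℕ, p.Prime → ∀ r : ZMod p,
  ∀ φ : St a → St a, (∀ s : St a, p ∣ cc a s.1 → (φ s).1 = (s.1.1, p * s.1.2)) →
  ∀ f : St a → ℂ, Bdd f →
  Tendsto (fun q =>
    avg a q ({s : St a | p ∣ cc a s.1 ∧ ((s.1.1 : ℕ) : ZMod p) = r}.indicator (fun s => f (φ s))) -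
    avg a q ({s : St a | p ∣ s.1.2 ∧ ((s.1.1 : ℕ) : ZMod p) = r}.indicator f)) par (𝓝 0)

/-- ELL (from ABS, LAWS, SHIFT, FLIP, MASS): the Elliott-type theorem. -/
def SpecEll : Prop := ∀ a : ℤ, ¬ IsSquare (-a) → ∀ (m : ℕ) (g : ℕ → ℂ), 1 ≤ m →
  IsMulRoot m g → NonReal g (PP a) →
  Tendsto (fun q => avg a q (fun s => uu g s * uu g (TT s))) par (𝓝 0)

end Pool.Agent.Lib.MP_391708_nt.H20
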